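import Pool.Agent.helper72.FPC.Exp2

/-!
# Project FE (corollaries): predicates on exponents with the four property

`Four E P`: any four natural numbers whose differences are outside the finite set `E` have a difference with the property `P`.
Then some `d ≤ 3 (3 #E + 1)` has `P` (`one`), at least a third of the numbers in every long interval have `P` (`third`), any `r` such predicates with `#E ≤ X` hold for a common
`d ≤ L(r, X)` (`common`, Ramsey), and every infinite set of integers has an infinite subset all of whose differences have countably many such properties (`dif`).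
-/

set_option autoImplicit false

namespace Pool.Agent.FEX

open Finset Real Pool.Agent.FPC

/-- any four numbers whose differences are outside `E` have a difference with `P` -/
def Four (E : Finset ℕ) (P : ℕ → Prop) : Prop :=
  ∀ x : Fin 4 → ℕ, StrictMono x → (∀ i j, i < j → x j - x i ∉ E) → ∃ i j, i < j ∧ P (x j - x i)

/-- a bounded exponent -/
theorem one (E : Finset ℕ) (P : ℕ → Prop) (h : Four E P) : ∃ m : ℕ, 1 ≤ m ∧ m ≤ 3 * (3 * #E + 1) ∧ P m := by
  classical
  by_contra hno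
  push Not at hno
  have hd : ∀ d : ℕ, 1 ≤ d → d ≤ 3 * #E + 1 → ∃ r : ℕ, 1 ≤ r ∧ r ≤ 3 ∧ d * r ∈ E := by
    intro d hd1 hd2
    by_contra hr
    push Not at hr
    obtain ⟨i, j, hij, hP⟩ := h (fun i => d * (i : ℕ)) (fun i j hij => Nat.mul_lt_mul_of_pos_left hij hd1)
      (fun i j hij => by
        rw [← Nat.mul_sub]
        have h1 : (i : ℕ) < j := hij
        exact hr _ (by omega) (by omega))
    rw [← Nat.mul_sub] at hP
    have h1 : (i : ℕ) < j := hij
    have h2 : (j : ℕ) - i ≤ 3 := by omega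
    have h3 : 1 ≤ (j : ℕ) - i := by omega
    refine hno (d * ((j : ℕ) - i)) (Nat.mul_pos hd1 h3) ?_ hP
    calc d * ((j : ℕ) - i) ≤ (3 * #E + 1) * 3 := Nat.mul_le_mul hd2 h2
      _ = 3 * (3 * #E + 1) := by ring
  choose! r hr1 hr2 hr3 using hd
  have hcard : #(Icc 1 (3 * #E + 1)) ≤ #(Icc 1 3 ×ˢ E) := by
    refine card_le_card_of_injOn (fun d => (r d, d * r d)) ?_ ?_
    · intro d hd
      rw [mem_coe, mem_Icc] at hd
      rw [mem_coe, mem_product, mem_Icc]
      exact ⟨⟨hr1 d hd.1 hd.2, hr2 d hd.1 hd.2⟩, hr3 d hd.1 hd.2⟩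
    · intro d hd d' hd' he
      rw [mem_coe, mem_Icc] at hd hd'
      have h1 : r d = r d' := (Prod.mk.inj he).1
      have h2 : d * r d = d' * r d' := (Prod.mk.inj he).2
      rw [h1] at h2
      have h3 : 0 < r d' := hr1 d' hd'.1 hd'.2
      exact Nat.eq_of_mul_eq_mul_right h3 h2
  rw [Nat.card_Icc, card_product, Nat.card_Icc] at hcard
  omega

/-- one of the first three multiples -/
theorem three (E : Finset ℕ) (P : ℕ → Prop) (h : Four E P) : ∃ F : Finset ℕ, #F ≤ 3 * #E ∧ ∀ r : ℕ, 1 ≤ r → r ∉ F → P r ∨ P (2 * r) ∨ P (3 * r) := by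
  classical
  refine ⟨E ∪ E.image (fun e => e / 2) ∪ E.image (fun e => e / 3), ?_, fun r hr hF => ?_⟩
  · have h1 := card_union_le (E ∪ E.image (fun e => e / 2)) (E.image (fun e => e / 3))
    have h2 := card_union_le E (E.image (fun e => e / 2))
    have h3 := card_image_le (s := E) (f := fun e => e / 2)
    have h4 := card_image_le (s := E) (f := fun e => e / 3)
    omega
  · have hF1 : r ∉ E := fun h1 => hF (mem_union_left _ (mem_union_left _ h1))
    have hF2 : 2 * r ∉ E := fun h1 => hF (mem_union_left _ (mem_union_right _ (mem_image.2 ⟨2 * r, h1, by omega⟩)))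
    have hF3 : 3 * r ∉ E := fun h1 => hF (mem_union_right _ (mem_image.2 ⟨3 * r, h1, by omega⟩))
    have hE : ∀ d : ℕ, 1 ≤ d → d ≤ 3 → d * r ∉ E := by
      intro d h1 h2
      interval_cases d
      · rw [one_mul]
        exact hF1
      · exact hF2
      · exact hF3
    obtain ⟨i, j, hij, hP⟩ := h (fun i => (i : ℕ) * r) (fun i j hij => Nat.mul_lt_mul_of_pos_right hij hr)
      (fun i j hij => by
        rw [← Nat.sub_mul]
        have h1 : (i : ℕ) < j := hij
        exact hE _ (by omega) (by omega))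
    rw [← Nat.sub_mul] at hP
    have h1 : (i : ℕ) < j := hij
    obtain ⟨d, hd⟩ : ∃ d, d = (j : ℕ) - i := ⟨_, rfl⟩
    rw [← hd] at hP
    have h2 : d = 1 ∨ d = 2 ∨ d = 3 := by omega
    rcases h2 with rfl | rfl | rfl
    · rw [one_mul] at hP
      exact Or.inl hP
    · exact Or.inr (Or.inl hP)
    · exact Or.inr (Or.inr hP)

open Classical in
/-- a third of all exponents -/
theorem third (E : Finset ℕ) (P : ℕ → Prop) (h : Four E P) (δ : ℝ) (hδ : 0 < δ) :
    ∃ M₀ : ℕ, ∀ M : ℕ, M₀ ≤ M → ∀ u : ℕ, (1 / 3 - δ) * M ≤ (#{k ∈ Ioc u (u + M) | P k} : ℝ) := by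
  have hx : ∀ e ∈ E, e ≤ E.sup id := fun e he => le_sup (f := id) he
  have h1 := Exp_dens 3 (by norm_num) (E.sup id) P (fun f hf => ?_) δ hδ
  · simpa only [Nat.cast_ofNat] using h1
  · obtain ⟨i, j, hij, hP⟩ := h (fun i => f (i : ℕ)) (fun i j hij => by
        have h2 := hf (i : ℕ) (j : ℕ) hij (by omega)
        show f (i : ℕ) < f (j : ℕ)
        omega) (fun i j hij he => by
        have h2 := hf (i : ℕ) (j : ℕ) hij (by omega)
        have h3 := hx _ he
        omega)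
    exact ⟨(i : ℕ), (j : ℕ), hij, by omega, hP⟩

/-- Ramsey's theorem: `N` four-element sets whose differences have one colour and differ from set to set -/
theorem ram (r N : ℕ) : ∃ L : ℕ, ∀ χ : ℕ → Fin r, ∃ (c : Fin r) (x : Fin N → Fin 4 → ℕ), (∀ τ, StrictMono (x τ)) ∧ (∀ τ i, x τ i ≤ L) ∧
    (∀ τ i j, i < j → χ (x τ j - x τ i) = c) ∧ ∀ τ τ' i j i' j', τ ≠ τ' → i < j → i' < j' → x τ j - x τ i ≠ x τ' j' - x τ' i' := by
  classical
  obtain ⟨R, hR⟩ := Exp_ramsey (Fin r)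
  refine ⟨R ^ (r * N + 1), fun χ => ?_⟩
  have hr : 0 < r := Nat.pos_of_ne_zero fun h0 => by
    subst h0
    exact (χ 0).elim0
  have h1 := fun τ : ℕ => hR fun k k' => χ (R ^ τ * (k' - k))
  choose t ht htR c hc using h1
  have hR1 : 1 ≤ R := by
    have := htR 0 0
    omega
  obtain ⟨c₀, -, hc₀⟩ := exists_le_card_fiber_of_mul_le_card_of_maps_to (s := range (r * N)) (t := (univ : Finset (Fin r))) (f := c) (n := N)
    (fun a _ => mem_univ _) ⟨⟨0, hr⟩, mem_univ _⟩ (by rw [card_univ, Fintype.card_fin, card_range])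
  obtain ⟨F, hF, hFc⟩ := exists_subset_card_eq hc₀
  refine ⟨c₀, fun τ i => R ^ (F.orderEmbOfFin hFc τ) * t (F.orderEmbOfFin hFc τ) i, fun τ i j hij => ?_, fun τ i => ?_, fun τ i j hij => ?_, fun τ τ' i j i' j' hne hij hij' he => ?_⟩
  · exact Nat.mul_lt_mul_of_pos_left (ht _ hij) (by positivity)
  · have h2 := hF (orderEmbOfFin_mem F hFc τ)
    rw [mem_filter, mem_range] at h2
    calc R ^ (F.orderEmbOfFin hFc τ) * t (F.orderEmbOfFin hFc τ) i ≤ R ^ (r * N) * R :=
          Nat.mul_le_mul (Nat.pow_le_pow_right hR1 h2.1.le) (htR _ _).le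
      _ = R ^ (r * N + 1) := (pow_succ _ _).symm
  · rw [← Nat.mul_sub]
    have h2 := hF (orderEmbOfFin_mem F hFc τ)
    rw [mem_filter] at h2
    rw [hc _ i j hij]
    exact h2.2
  · rw [← Nat.mul_sub, ← Nat.mul_sub] at he
    have hne' : F.orderEmbOfFin hFc τ ≠ F.orderEmbOfFin hFc τ' := fun h => hne ((F.orderEmbOfFin hFc).injective h)
    obtain ⟨a, ha⟩ : ∃ a, a = F.orderEmbOfFin hFc τ := ⟨_, rfl⟩
    obtain ⟨b, hb⟩ : ∃ b, b = F.orderEmbOfFin hFc τ' := ⟨_, rfl⟩
    rw [← ha, ← hb] at he hne'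
    have key : ∀ a b d d' : ℕ, a < b → d < R → 1 ≤ d' → R ^ a * d ≠ R ^ b * d' := by
      intro a b d d' hab hd hd' h
      obtain ⟨e, rfl⟩ := Nat.exists_eq_add_of_lt hab
      rw [show a + e + 1 = a + (e + 1) by ring, pow_add, mul_assoc] at h
      have h3 := Nat.eq_of_mul_eq_mul_left (by positivity) h
      have h4 : R * 1 ≤ R ^ (e + 1) * d' := Nat.mul_le_mul (by
        calc R = R ^ 1 := (pow_one R).symm
          _ ≤ R ^ (e + 1) := Nat.pow_le_pow_right hR1 (by omega)) hd'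
      omega
    have h5 := ht a hij
    have h6 := ht b hij'
    have h7 := htR a j
    have h8 := htR b j'
    rcases lt_or_gt_of_ne hne' with h9 | h9
    · exact key a b _ _ h9 (by omega) (by omega) he
    · exact key b a _ _ h9 (by omega) (by omega) he.symm

/-- a common exponent for `r` predicates, bounded in terms of `r` and `#E` -/
theorem common (r X : ℕ) : ∃ L : ℕ, 1 ≤ L ∧ ∀ (E : Fin r → Finset ℕ) (P : Fin r → ℕ → Prop), (∀ i, #(E i) ≤ X) → (∀ i, Four (E i) (P i)) →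
    ∃ m : ℕ, 1 ≤ m ∧ m ≤ L ∧ ∀ i, P i m := by
  classical
  obtain ⟨L, hL⟩ := ram r (X + 1)
  refine ⟨L + 1, by omega, fun E P hE hP => ?_⟩
  by_contra hno
  push Not at hno
  rcases Nat.eq_zero_or_pos r with h0 | h0
  · subst h0
    obtain ⟨i, -⟩ := hno 1 le_rfl (by omega)
    exact i.elim0
  · have h1 : ∀ m : ℕ, ∃ i : Fin r, 1 ≤ m → m ≤ L → ¬ P i m := by
      intro m
      by_cases h : 1 ≤ m ∧ m ≤ L
      · obtain ⟨i, hi⟩ := hno m h.1 (by omega)
        exact ⟨i, fun _ _ => hi⟩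
      · exact ⟨⟨0, h0⟩, fun h2 h3 => absurd ⟨h2, h3⟩ h⟩
    choose χ hχ using h1
    obtain ⟨c, x, hx1, hx2, hx3, hx4⟩ := hL χ
    have h2 : ∀ τ, ∃ i j, i < j ∧ x τ j - x τ i ∈ E c := by
      intro τ
      by_contra hcon
      push Not at hcon
      obtain ⟨i, j, hij, h3⟩ := hP c (x τ) (hx1 τ) hcon
      have h4 := hx1 τ hij
      have h5 := hx2 τ j
      have h6 := hχ (x τ j - x τ i) (by omega) (by omega)
      rw [hx3 τ i j hij] at h6
      exact h6 h3
    choose I J hIJ hE2 using h2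
    have h3 : #(univ : Finset (Fin (X + 1))) ≤ #(E c) := by
      refine card_le_card_of_injOn (fun τ => x τ (J τ) - x τ (I τ)) (fun τ _ => hE2 τ) ?_
      intro τ _ τ' _ he
      by_contra hne
      exact hx4 τ τ' _ _ _ _ hne (hIJ τ) (hIJ τ') he
    rw [card_univ, Fintype.card_fin] at h3
    have := hE c
    omega

/-- the differences of the elements of a set of an ultrafilter -/
theorem ultra (n₀ : ℕ) (hn : 1 ≤ n₀) (E : Finset ℕ) (P : ℕ → Prop) (h : Four E (fun d => P (n₀ * d))) (U : Ultrafilter ℕ)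
    (hU : (U : Filter ℕ) ≤ Filter.cofinite) : ∀ᶠ s in (U : Filter ℕ), ∀ᶠ t in (U : Filter ℕ), P (t - s) := by
  classical
  by_contra hcon
  rw [← Ultrafilter.eventually_not] at hcon
  obtain ⟨ρ, hρ⟩ : ∃ ρ : ℕ, ∀ᶠ t in (U : Filter ℕ), t % n₀ = ρ := by
    by_contra hno
    push Not at hno
    have h1 : ∀ᶠ t in (U : Filter ℕ), ∀ ρ ∈ range n₀, ¬ t % n₀ = ρ := by
      rw [Filter.eventually_all_finset]
      intro ρ _
      exact hno ρ
    obtain ⟨t, ht⟩ := h1.exists
    exact ht (t % n₀) (mem_range.2 (Nat.mod_lt _ hn)) rfl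
  obtain ⟨x, hx⟩ : ∃ x : ℕ, ∀ e ∈ E, e ≤ x := ⟨E.sup id, fun e he => le_sup (f := id) he⟩
  have hbad : ∀ s : ℕ, (¬ ∀ᶠ t in (U : Filter ℕ), P (t - s)) → ∀ᶠ t in (U : Filter ℕ), s + n₀ * (x + 1) < t ∧ ¬ P (t - s) := by
    intro s h
    have h1 : ∀ᶠ t in (U : Filter ℕ), s + n₀ * (x + 1) < t := hU (by
      rw [Nat.cofinite_eq_atTop]
      exact Filter.eventually_gt_atTop _)
    exact h1.and (Ultrafilter.eventually_not.2 h)
  obtain ⟨s0, b0, r0⟩ := (hcon.and hρ).exists
  have c0 := (hcon.and hρ).and (hbad s0 b0)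
  obtain ⟨s1, ⟨b1, r1⟩, g01⟩ := c0.exists
  have c1 := c0.and (hbad s1 b1)
  obtain ⟨s2, ⟨⟨b2, r2⟩, g02⟩, g12⟩ := c1.exists
  have c2 := c1.and (hbad s2 b2)
  obtain ⟨s3, ⟨⟨⟨b3, r3⟩, g03⟩, g13⟩, g23⟩ := c2.exists
  obtain ⟨S, hS⟩ : ∃ S : Fin 4 → ℕ, S = ![s0, s1, s2, s3] := ⟨_, rfl⟩
  have hall : ∀ i j : Fin 4, i < j → S i + n₀ * (x + 1) < S j ∧ ¬ P (S j - S i) := by
    intro i j hij
    rw [hS]
    fin_cases i <;> fin_cases j <;> first
      | exact absurd hij (by decide)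
      | exact g01
      | exact g02
      | exact g03
      | exact g12
      | exact g13
      | exact g23
  have hmod : ∀ i : Fin 4, S i % n₀ = ρ := by
    intro i
    rw [hS]
    fin_cases i
    · exact r0
    · exact r1
    · exact r2
    · exact r3
  have hdiv : ∀ i : Fin 4, S i = n₀ * (S i / n₀) + ρ := fun i => by
    have := Nat.div_add_mod (S i) n₀
    rw [hmod i] at this
    exact this.symm
  have hdif : ∀ i j : Fin 4, S j - S i = n₀ * (S j / n₀ - S i / n₀) := by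
    intro i j
    rw [Nat.mul_sub]
    have h1 := hdiv i
    have h2 := hdiv j
    omega
  have hgap : ∀ i j : Fin 4, i < j → x < S j / n₀ - S i / n₀ := by
    intro i j hij
    have h1 := (hall i j hij).1
    have h2 : n₀ * (x + 1) < n₀ * (S j / n₀ - S i / n₀) := by
      rw [← hdif]
      omega
    have h3 := Nat.lt_of_mul_lt_mul_left h2
    omega
  obtain ⟨i, j, hij, hG⟩ := h (fun i => S i / n₀) (fun i j hij => by
      have := hgap i j hij
      dsimp only
      omega) (fun i j hij he => by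
      have h1 := hgap i j hij
      have h2 := hx _ he
      omega)
  rw [← hdif] at hG
  exact (hall i j hij).2 hG

/-- every infinite set of integers has an infinite subset whose differences have countably many such properties -/
theorem dif {ι : Type} (f : ℕ → ι) (hf : Function.Surjective f) (P : ι → ℝ → ℕ → Prop) (hmono : ∀ i ε ε' m, ε ≤ ε' → P i ε m → P i ε' m)
    (h : ∀ i ε, 0 < ε → ∃ n₀ : ℕ, 1 ≤ n₀ ∧ ∃ E : Finset ℕ, Four E (fun d => P i ε (n₀ * d))) (S : Set ℕ) (hS : S.Infinite) :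
    ∃ H : Set ℕ, H ⊆ S ∧ H.Infinite ∧ ∀ i ε, 0 < ε → ∃ M : ℕ, ∀ s ∈ H, ∀ t ∈ H, M < s → s < t → P i ε (t - s) := by
  classical
  have hne : (Filter.cofinite ⊓ Filter.principal S).NeBot := by
    rw [Filter.inf_principal_neBot_iff]
    intro V hV
    rw [Filter.mem_cofinite] at hV
    by_contra hcon
    rw [Set.not_nonempty_iff_eq_empty] at hcon
    refine hS (hV.subset ?_)
    intro x hx hxV
    have : x ∈ V ∩ S := ⟨hxV, hx⟩
    rw [hcon] at this
    exact this
  obtain ⟨U, hU⟩ : ∃ U : Ultrafilter ℕ, (U : Filter ℕ) ≤ Filter.cofinite ⊓ Filter.principal S :=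
    ⟨@Ultrafilter.of _ _ hne, @Ultrafilter.of_le _ _ hne⟩
  have hU1 : (U : Filter ℕ) ≤ Filter.cofinite := hU.trans inf_le_left
  have hUS : ∀ᶠ t in (U : Filter ℕ), t ∈ S := (hU.trans inf_le_right) (Filter.mem_principal_self S)
  obtain ⟨Q, hQ⟩ : ∃ Q : ℕ → ℕ → ℕ → Prop, ∀ n s t, Q n s t ↔
      ∀ i ∈ range (n + 1), P (f i) (1 / ((n : ℝ) + 1)) (t - s) := ⟨_, fun _ _ _ => Iff.rfl⟩
  have hA : ∀ n : ℕ, ∀ᶠ s in (U : Filter ℕ), ∀ᶠ t in (U : Filter ℕ), Q n s t := by
    intro n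
    simp only [hQ]
    have h1 : ∀ᶠ s in (U : Filter ℕ), ∀ i ∈ range (n + 1), ∀ᶠ t in (U : Filter ℕ), P (f i) (1 / ((n : ℝ) + 1)) (t - s) := by
      rw [Filter.eventually_all_finset]
      intro i _
      obtain ⟨n₀, hn, E, hE⟩ := h (f i) (1 / ((n : ℝ) + 1)) (by positivity)
      exact ultra n₀ hn E _ hE U hU1
    refine h1.mono fun s hs => ?_
    rw [Filter.eventually_all_finset]
    exact hs
  obtain ⟨g, hg1, hg2⟩ := exists_seq_of_forall_finset_exists
    (fun x : ℕ × ℕ => x.2 ∈ S ∧ ∀ᶠ t in (U : Filter ℕ), Q x.1 x.2 t)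
    (fun x y : ℕ × ℕ => x.1 < y.1 ∧ x.2 < y.2 ∧ Q x.1 x.2 y.2) (by
      intro s hs
      obtain ⟨n, hn⟩ : ∃ n : ℕ, n = (∑ x ∈ s, x.1) + 1 := ⟨_, rfl⟩
      have hn' : ∀ x ∈ s, x.1 < n := by
        intro x hx
        have := Finset.single_le_sum (f := fun x : ℕ × ℕ => x.1) (fun _ _ => Nat.zero_le _) hx
        omega
      have h1 : ∀ᶠ t in (U : Filter ℕ), ∀ x ∈ s, x.2 < t := by
        rw [Filter.eventually_all_finset]
        intro x _
        refine hU1 ?_
        rw [Nat.cofinite_eq_atTop]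
        exact Filter.eventually_gt_atTop _
      have h2 : ∀ᶠ t in (U : Filter ℕ), ∀ x ∈ s, Q x.1 x.2 t := by
        rw [Filter.eventually_all_finset]
        intro x hx
        exact (hs x hx).2
      obtain ⟨t, h3, h4, h5, h6⟩ := (h1.and (h2.and (hUS.and (hA n)))).exists
      exact ⟨(n, t), ⟨h5, h6⟩, fun x hx => ⟨hn' x hx, h3 x hx, h4 x hx⟩⟩)
  have hsm1 : StrictMono fun i => (g i).1 := fun i j hij => (hg2 i j hij).1
  have hsm : StrictMono fun i => (g i).2 := fun i j hij => (hg2 i j hij).2.1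
  have hge : ∀ i, i ≤ (g i).1 := fun i => hsm1.le_apply
  refine ⟨Set.range fun i => (g i).2, ?_, Set.infinite_range_of_injective hsm.injective, ?_⟩
  · rintro _ ⟨i, rfl⟩
    exact (hg1 i).1
  · intro i₀ ε hε
    obtain ⟨M, hM⟩ := exists_nat_one_div_lt hε
    obtain ⟨k, hk⟩ := hf i₀
    refine ⟨(g (M + k)).2, ?_⟩
    rintro _ ⟨i, rfl⟩ _ ⟨j, rfl⟩ hi hij
    have hiM : M + k < i := hsm.lt_iff_lt.1 hi
    have hij' : i < j := hsm.lt_iff_lt.1 hij
    have h1 := (hQ _ _ _).1 (hg2 i j hij').2.2 k (mem_range.2 (by have := hge i; omega))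
    rw [hk] at h1
    refine hmono _ _ _ _ ?_ h1
    have h4 : 1 / (((g i).1 : ℝ) + 1) ≤ ε := by
      refine le_trans ?_ hM.le
      have h5 : (M : ℝ) ≤ (g i).1 := by
        have := hge i
        exact_mod_cast (show M ≤ (g i).1 by omega)
      exact one_div_le_one_div_of_le (by positivity) (by linarith)
    exact h4

end Pool.Agent.FEX
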