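import Pool.Agent.helper76.FE.Spec
import Pool.Agent.helper72.FE.Exp

/-!
# Project FE: consequences of `FEC` for four exponents

`GoodT ε a b c m`: the iterate `T^m` of `T x = (b x + c)/a` is true for at least the proportion `1 - ε` of every long interval of every class near its constant.
-/

set_option autoImplicit false

namespace Pool.Agent.FE

open Finset Pool.Agent.FEX
open Pool.Agent.IT (Ad br)

theorem GoodT_mono (ε ε' : ℝ) (a b : ℕ) (c : ℤ) (m : ℕ) (h : ε ≤ ε') (hG : GoodT ε a b c m) : GoodT ε' a b c m := by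
  unfold GoodT Pool.Agent.SK.Dens at *
  obtain ⟨D, hD, h1⟩ := hG
  refine ⟨D, hD, fun q hq hDq => ?_⟩
  obtain ⟨M₀, h2⟩ := h1 q hq hDq
  refine ⟨M₀, fun M hM y hy => le_trans ?_ (h2 M hM y hy)⟩
  exact mul_le_mul_of_nonneg_right (by linarith) (Nat.cast_nonneg _)

/-- the four property of the exponents of every case -/
def FOR_stmt : Prop := ∃ C : ℝ, 0 < C ∧ ∀ ε : ℝ, 0 < ε → ε ≤ 1 → ∃ n₀ : ℕ, 1 ≤ n₀ ∧ ∀ (a b : ℕ) (c : ℤ), Ad a b c → a ≠ b →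
  ∃ E : Finset ℕ, (#E : ℝ) ≤ C / ε ^ 4 ∧ Four E (fun d => GoodT ε a b c (n₀ * d))

theorem FOR (h : FEC_stmt) : FOR_stmt := by
  obtain ⟨C, hC, h1⟩ := h 4 (by norm_num)
  refine ⟨C, hC, fun ε hε hε1 => ?_⟩
  obtain ⟨n₀, hn, h2⟩ := h1 ε hε hε1
  refine ⟨n₀, hn, fun a b c hc hab => ?_⟩
  obtain ⟨E, hE, h3⟩ := h2 a b c hc hab
  refine ⟨E, hE, fun x hx hxE => ?_⟩
  obtain ⟨S, hS, h4⟩ := h3 x hx.injective (fun i j hij => hxE j i (hx.lt_iff_lt.1 hij))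
  obtain ⟨i, hi, j, hj, hij⟩ := one_lt_card.1 (show 1 < #S by omega)
  rcases lt_or_gt_of_ne hij with h5 | h5
  · exact ⟨i, j, h5, h4 j hj i hi (hx h5)⟩
  · exact ⟨j, i, h5, h4 i hi j hj (hx h5)⟩

/-- a bounded exponent for every case, one of the first three multiples of almost every exponent, and a third of all exponents -/
theorem COR1 (h : FOR_stmt) : ∃ C : ℝ, 0 < C ∧ ∀ ε : ℝ, 0 < ε → ε ≤ 1 → ∃ n₀ : ℕ, 1 ≤ n₀ ∧ ∀ (a b : ℕ) (c : ℤ), Ad a b c → a ≠ b →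
    (∃ d : ℕ, 1 ≤ d ∧ (d : ℝ) ≤ C / ε ^ 4 ∧ GoodT ε a b c (n₀ * d)) ∧
    (∃ F : Finset ℕ, (#F : ℝ) ≤ C / ε ^ 4 ∧ ∀ d : ℕ, 1 ≤ d → d ∉ F → GoodT ε a b c (n₀ * d) ∨ GoodT ε a b c (n₀ * (2 * d)) ∨ GoodT ε a b c (n₀ * (3 * d))) ∧
    ∀ δ : ℝ, 0 < δ → ∃ M₀ : ℕ, ∀ M : ℕ, M₀ ≤ M → ∀ u : ℕ, (1 / 3 - δ) * M ≤ ({d : ℕ | d ∈ Ioc u (u + M) ∧ GoodT ε a b c (n₀ * d)}.ncard : ℝ) := by
  classical
  obtain ⟨C, hC, h1⟩ := h
  refine ⟨9 * C + 3, by linarith, fun ε hε hε1 => ?_⟩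
  obtain ⟨n₀, hn, h2⟩ := h1 ε hε hε1
  refine ⟨n₀, hn, fun a b c hc hab => ?_⟩
  obtain ⟨E, hE, h3⟩ := h2 a b c hc hab
  have h4 : ε ^ 4 ≤ 1 := pow_le_one₀ hε.le hε1
  have h4p : 0 < ε ^ 4 := by positivity
  have hinv : 1 ≤ 1 / ε ^ 4 := by rw [le_div_iff₀ h4p, one_mul]; exact h4
  have h6 : (9 * C + 3) / ε ^ 4 = 9 * (C / ε ^ 4) + 3 * (1 / ε ^ 4) := by ring
  have hE0 : (0 : ℝ) ≤ #E := Nat.cast_nonneg _
  refine ⟨?_, ?_, fun δ hδ => ?_⟩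
  · obtain ⟨d, hd1, hd2, hd⟩ := one E _ h3
    refine ⟨d, hd1, ?_, hd⟩
    have h5 : (d : ℝ) ≤ 3 * (3 * #E + 1) := by exact_mod_cast hd2
    rw [h6]
    linarith
  · obtain ⟨F, hF, h5⟩ := three E _ h3
    refine ⟨F, ?_, h5⟩
    have h7 : (#F : ℝ) ≤ 3 * #E := by exact_mod_cast hF
    rw [h6]
    linarith
  · obtain ⟨M₀, h4⟩ := third E _ h3 δ hδ
    refine ⟨M₀, fun M hM u => (h4 M hM u).trans (le_of_eq ?_)⟩
    rw [← Set.ncard_coe_finset]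
    congr 2
    ext d
    simp only [coe_filter, Set.mem_ofPred_eq]

/-- a common exponent for any `r` cases, bounded in terms of `ε` and `r` -/
theorem COR2 (h : FOR_stmt) (ε : ℝ) (hε : 0 < ε) (r : ℕ) : ∃ K : ℕ, 1 ≤ K ∧ ∀ (a b : Fin r → ℕ) (c : Fin r → ℤ), (∀ i, Ad (a i) (b i) (c i)) → (∀ i, a i ≠ b i) →
    ∃ m : ℕ, 1 ≤ m ∧ m ≤ K ∧ ∀ i, GoodT ε (a i) (b i) (c i) m := by
  obtain ⟨C, hC, h1⟩ := h
  obtain ⟨n₀, hn, h2⟩ := h1 (min ε 1) (lt_min hε one_pos) (min_le_right _ _)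
  obtain ⟨X, hX⟩ := exists_nat_gt (C / (min ε 1) ^ 4)
  obtain ⟨L, hL, h3⟩ := common r X
  refine ⟨n₀ * L, Nat.mul_pos hn hL, fun a b c hc hab => ?_⟩
  choose E hE h4 using fun i => h2 (a i) (b i) (c i) (hc i) (hab i)
  obtain ⟨m, hm1, hm2, hm⟩ := h3 E (fun i d => GoodT (min ε 1) (a i) (b i) (c i) (n₀ * d)) (fun i => by
    have h5 := (hE i).trans hX.le
    exact_mod_cast h5) h4
  exact ⟨n₀ * m, Nat.mul_pos hn hm1, Nat.mul_le_mul_left _ hm2, fun i => GoodT_mono _ _ _ _ _ _ (min_le_left _ _) (hm i)⟩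

/-- every infinite set of integers contains an infinite set whose differences are good exponents for EVERY case -/
theorem COR3 (h : FOR_stmt) (S : Set ℕ) (hS : S.Infinite) : ∃ H : Set ℕ, H ⊆ S ∧ H.Infinite ∧ ∀ (a b : ℕ) (c : ℤ), Ad a b c → a ≠ b → ∀ ε : ℝ, 0 < ε →
    ∃ M : ℕ, ∀ s ∈ H, ∀ t ∈ H, M < s → s < t → GoodT ε a b c (t - s) := by
  classical
  obtain ⟨C, hC, h1⟩ := h
  have hne : Nonempty {T : ℕ × ℕ × ℤ // Ad T.1 T.2.1 T.2.2 ∧ T.1 ≠ T.2.1} := by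
    refine ⟨⟨(2, 1, 1), ?_, by norm_num⟩⟩
    unfold Pool.Agent.IT.Ad
    refine ⟨by norm_num, by norm_num, by norm_num, by norm_num, isCoprime_one_right, isCoprime_one_right, ?_⟩
    rintro ⟨h2, -, -⟩
    exact absurd h2 (by decide)
  obtain ⟨f, hf⟩ := exists_surjective_nat {T : ℕ × ℕ × ℤ // Ad T.1 T.2.1 T.2.2 ∧ T.1 ≠ T.2.1}
  obtain ⟨H, hHS, hH, h2⟩ := dif f hf (fun T ε m => GoodT ε T.1.1 T.1.2.1 T.1.2.2 m) (fun i ε ε' m h => GoodT_mono _ _ _ _ _ _ h) (fun T ε hε => by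
    obtain ⟨n₀, hn, h2⟩ := h1 (min ε 1) (lt_min hε one_pos) (min_le_right _ _)
    obtain ⟨E, -, h3⟩ := h2 _ _ _ T.2.1 T.2.2
    refine ⟨n₀, hn, E, fun x hx hxE => ?_⟩
    obtain ⟨i, j, hij, h4⟩ := h3 x hx hxE
    exact ⟨i, j, hij, GoodT_mono _ _ _ _ _ _ (min_le_left _ _) h4⟩) S hS
  exact ⟨H, hHS, hH, fun a b c hc hab ε hε => h2 ⟨(a, b, c), hc, hab⟩ ε hε⟩

end Pool.Agent.FE
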